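import Pool.Agent.helper84.TP.SpecA

/-!
# tp:MIC: the elementary operations simulate the steps
-/

set_option autoImplicit false

namespace Pool.Agent.TP

open Function Turing Turing.PartrecToTM2 Relation

/-- The relation between the configurations and the micro configurations. -/
def MIC_R : Cfg' → MC → Prop
  | ⟨some l, v, S⟩, m => m = (tr l, v, S)
  | ⟨none, v, S⟩, m => m = (TM2.Stmt.halt, v, S)

theorem MIC_step (q : Sm) : ∀ (v : Option Γ') (S : K' → List Γ'),
    ∃ m, MIC_R (TM2.stepAux q v S) m ∧ StateTransition.Reaches mic (q, v, S) m ∧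
      (q ≠ TM2.Stmt.halt → StateTransition.Reaches₁ mic (q, v, S) m) := by
  induction q with
  | push k f q ih =>
    intro v S
    obtain ⟨m, h1, h2, -⟩ := ih v (update S k (f v :: S k))
    have h3 : StateTransition.Reaches₁ mic (TM2.Stmt.push k f q, v, S) m :=
      Relation.TransGen.head' rfl h2
    exact ⟨m, h1, h3.to_reflTransGen, fun _ => h3⟩
  | peek k f q ih =>
    intro v S
    obtain ⟨m, h1, h2, -⟩ := ih (f v (S k).head?) S
    have h3 : StateTransition.Reaches₁ mic (TM2.Stmt.peek k f q, v, S) m :=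
      Relation.TransGen.head' rfl h2
    exact ⟨m, h1, h3.to_reflTransGen, fun _ => h3⟩
  | pop k f q ih =>
    intro v S
    obtain ⟨m, h1, h2, -⟩ := ih (f v (S k).head?) (update S k (S k).tail)
    have h3 : StateTransition.Reaches₁ mic (TM2.Stmt.pop k f q, v, S) m :=
      Relation.TransGen.head' rfl h2
    exact ⟨m, h1, h3.to_reflTransGen, fun _ => h3⟩
  | load a q ih =>
    intro v S
    obtain ⟨m, h1, h2, -⟩ := ih (a v) S
    have h3 : StateTransition.Reaches₁ mic (TM2.Stmt.load a q, v, S) m :=
      Relation.TransGen.head' rfl h2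
    exact ⟨m, h1, h3.to_reflTransGen, fun _ => h3⟩
  | branch f q₁ q₂ ih₁ ih₂ =>
    intro v S
    cases hf : f v with
    | true =>
      obtain ⟨m, h1, h2, -⟩ := ih₁ v S
      have h3 : StateTransition.Reaches₁ mic (TM2.Stmt.branch f q₁ q₂, v, S) m :=
        Relation.TransGen.head' (b := (q₁, v, S)) (by
          show some (cond (f v) q₁ q₂, v, S) = some (q₁, v, S)
          rw [hf]
          rfl) h2
      refine ⟨m, ?_, h3.to_reflTransGen, fun _ => h3⟩
      have h4 : TM2.stepAux (TM2.Stmt.branch f q₁ q₂) v S = TM2.stepAux q₁ v S := by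
        show cond (f v) (TM2.stepAux q₁ v S) (TM2.stepAux q₂ v S) = _
        rw [hf]
        rfl
      rw [h4]
      exact h1
    | false =>
      obtain ⟨m, h1, h2, -⟩ := ih₂ v S
      have h3 : StateTransition.Reaches₁ mic (TM2.Stmt.branch f q₁ q₂, v, S) m :=
        Relation.TransGen.head' (b := (q₂, v, S)) (by
          show some (cond (f v) q₁ q₂, v, S) = some (q₂, v, S)
          rw [hf]
          rfl) h2
      refine ⟨m, ?_, h3.to_reflTransGen, fun _ => h3⟩
      have h4 : TM2.stepAux (TM2.Stmt.branch f q₁ q₂) v S = TM2.stepAux q₂ v S := by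
        show cond (f v) (TM2.stepAux q₁ v S) (TM2.stepAux q₂ v S) = _
        rw [hf]
        rfl
      rw [h4]
      exact h1
  | goto l =>
    intro v S
    have h3 : StateTransition.Reaches₁ mic (TM2.Stmt.goto l, v, S) (tr (l v), v, S) :=
      Relation.TransGen.single rfl
    exact ⟨_, rfl, h3.to_reflTransGen, fun _ => h3⟩
  | halt =>
    intro v S
    exact ⟨_, rfl, Relation.ReflTransGen.refl, fun h => absurd rfl h⟩

theorem MIC_tr (l : Λ') : tr l ≠ TM2.Stmt.halt := by
  intro h
  cases l with
  | move p k₁ k₂ q => cases h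
  | clear p k q => cases h
  | copy q => cases h
  | push k s q => cases h
  | read q => cases h
  | succ q => cases h
  | pred q₁ q₂ => cases h
  | ret k => cases k <;> cases h

theorem MIC_resp : StateTransition.Respects (TM2.step tr) mic MIC_R := by
  intro c m h
  obtain ⟨l, v, S⟩ := c
  cases l with
  | none =>
    have h' : m = (TM2.Stmt.halt, v, S) := h
    subst h'
    rfl
  | some l =>
    have h' : m = (tr l, v, S) := h
    subst h'
    obtain ⟨m', h1, -, h2⟩ := MIC_step (tr l) v S
    exact ⟨m', h1, h2 (MIC_tr l)⟩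

theorem MIC : MIC_stmt := by
  intro l v S v' S'
  constructor
  · intro h
    obtain ⟨m, h1, h2⟩ := StateTransition.tr_reaches MIC_resp (a₁ := (⟨some l, v, S⟩ : Cfg'))
      (a₂ := (tr l, v, S)) rfl h
    have h3 : m = (TM2.Stmt.halt, v', S') := h1
    rw [h3] at h2
    exact h2
  · intro h
    have h1 : (TM2.Stmt.halt, v', S') ∈ StateTransition.eval mic (tr l, v, S) :=
      StateTransition.mem_eval.2 ⟨h, rfl⟩
    obtain ⟨⟨l', v'', S''⟩, h2, h3⟩ := StateTransition.tr_eval_rev MIC_resp (a₁ := (⟨some l, v, S⟩ : Cfg')) rfl h1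
    cases l' with
    | none =>
      have h4 : ((TM2.Stmt.halt, v', S') : MC) = (TM2.Stmt.halt, v'', S'') := h2
      have h5 := (StateTransition.mem_eval.1 h3).1
      rw [Prod.mk.injEq, Prod.mk.injEq] at h4
      rw [h4.2.1, h4.2.2]
      exact h5
    | some l' =>
      exfalso
      have h4 : ((TM2.Stmt.halt, v', S') : MC) = (tr l', v'', S'') := h2
      exact MIC_tr l' (congrArg Prod.fst h4).symm

end Pool.Agent.TP
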